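import Pool.Agent.TH38.ZT.Final
import Pool.Agent.TH38.ZT.Trace

/-!
Zero in the spectrum for closed aspherical manifolds (and finite aspherical complexes) whose
fundamental group is an iterated extension with infinite cyclic normal subgroups.

A closed aspherical manifold `M` with fundamental group `G` is homotopy equivalent to a finite CW
complex, and the cellular chain complex of the universal cover of that complex is a finite free
resolution `X` of the trivial `ℤ[G]`-module `ℤ` (`Pool.Agent.H919R4.ZS.FinRes`). Its homology with
coefficients in `C*_r(G)` is the homology of `M` with these coefficients.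

`Tower G Q` (`Pool.Agent.TH38.ZT.Tower`): `Q` arises from `G` by successively dividing out infinite
cyclic normal subgroups. `euler Y` (`Pool.Agent.TH38.ZT.euler`) is the Euler characteristic.
-/

set_option autoImplicit false

namespace Pool.Agent.Results.MP_48737f_gt.CircleTowers

open Pool.Agent.H919R4.ZS (FinRes toRed)
open Pool.Agent.TH38.ZT (Tower euler)

/-- Let `Q` arise from `G` by successively dividing out infinite cyclic normal subgroups, and let
`Y` be a finite free resolution of `ℤ` over `ℤ[Q]`. If `H_i(Q; C*_r(Q)) ≠ 0`, or if `i` is the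
length of `Y` and the Euler characteristic of `Y` is not zero, then `G` has a finite free
resolution, and for every such resolution `X` there is `j ≤ i` with `H_j(X; C*_r(G)) ≠ 0`. -/
theorem result (G Q : Type) [Group G] [Group Q] (h : Tower G Q) (Y : FinRes Q) (i : ℕ)
    (hY : Nontrivial (Y.homology (toRed Q) i) ∨ (i = Y.len ∧ euler Y ≠ 0)) :
    Nonempty (FinRes G) ∧ ∀ X : FinRes G, ∃ j ≤ i, Nontrivial (X.homology (toRed G) j) := by
  obtain ⟨h1, h2⟩ := Pool.Agent.TH38.ZT.tower h Y
  refine ⟨h1, fun X => ?_⟩
  by_contra hcon
  push Not at hcon
  have h3 := h2 X i hcon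
  rcases hY with hY | ⟨rfl, hY⟩
  · exact not_nontrivial_iff_subsingleton.2 (h3 i le_rfl) hY
  · obtain ⟨k, hk, hk'⟩ := Pool.Agent.TH38.ZT.exists_of_euler Y hY
    exact not_nontrivial_iff_subsingleton.2 (h3 k hk) hk'

end Pool.Agent.Results.MP_48737f_gt.CircleTowers
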